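import Pool.Agent.Lib.helper8.Signs

set_option autoImplicit false

namespace Pool.Agent.Results.MP_c8a11a_co.NotMid

open Pool.Agent.Lib.helper8.Signs

/-- `a ↦ (l a, v a, r a)` is a veto interval representation of `G`. -/
def Rep {V : Type} (G : SimpleGraph V) (l v r : V → ℝ) : Prop :=
  (∀ a, l a < v a ∧ v a < r a) ∧ Function.Injective (fun a => (l a, v a, r a)) ∧
    ∀ a b, a ≠ b → (G.Adj a b ↔
      (v a < l b ∧ l b < r a ∧ r a < v b) ∨ (v b < l a ∧ l a < r b ∧ r b < v a))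

def gz {V : Type} (p : V → ℤ × ℤ × ℤ) : SimpleGraph V :=
  SimpleGraph.fromRel (fun a b => (p a).2.1 ≤ (p b).1 ∧ (p b).1 < (p a).2.2 ∧
    (p a).2.2 < (p b).2.1)

theorem gz_vi {V : Type} [Fintype V] (p : V → ℤ × ℤ × ℤ)
    (h : ∀ a, (p a).1 < (p a).2.1 ∧ (p a).2.1 < (p a).2.2) : ∃ l v r, Rep (gz p) l v r := by
  obtain ⟨δ, d1, d2⟩ := perturb V
  refine ⟨fun a => (p a).1 + δ a, fun a => (p a).2.1, fun a => (p a).2.2,
    fun a => ?_, fun a b e => d2 (fun a => (p a).1) a b (congrArg Prod.fst e), fun a b hab => ?_⟩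
  · simp only [(lt_pert _ _ (d1 a)).2, Int.cast_lt]; exact h a
  · simp only [gz, SimpleGraph.fromRel_adj, ne_eq, hab, not_false_eq_true, true_and,
      (lt_pert _ _ (d1 _)).2, (lt_pert _ _ (d1 _)).1, Int.cast_lt]

abbrev W (k N : ℕ) := (Fin 3 × Fin k) ⊕ Fin N

def pt {k N : ℕ} (c : Fin N → Fin 3 → Fin k) : W k N → ℤ × ℤ × ℤ
  | Sum.inl (s, t) =>
    if s = 0 then (k + t - 1, k + t, 2 * k)
    else if s = 1 then (-2, -1, 3 * k + t)
    else (4 * k, 5 * k + t + 2, 6 * k + 2)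
  | Sum.inr y => (k + c y 0, 3 * k + c y 1 + 1, 5 * k + c y 2 + 1)

theorem pt_vi {k N : ℕ} (c : Fin N → Fin 3 → Fin k) : ∃ l v r, Rep (gz (pt c)) l v r := by
  refine gz_vi _ ?_
  rintro (⟨s, t⟩ | y)
  · have := t.2
    simp only [pt]
    split_ifs <;> simp only <;> omega
  · have := (c y 0).2
    have := (c y 1).2
    simp only [pt]
    omega

theorem pt_adj {k N : ℕ} (c : Fin N → Fin 3 → Fin k) (s : Fin 3) (t : Fin k) (y : Fin N) :
    (gz (pt c)).Adj (Sum.inl (s, t)) (Sum.inr y) ↔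
      if s.val < 2 then t.val ≤ (c y s).val else (c y s).val ≤ t.val := by
  have := t.2
  have := (c y 0).2
  have := (c y 1).2
  have := (c y 2).2
  obtain rfl | rfl | rfl : s = 0 ∨ s = 1 ∨ s = 2 := by omega
  all_goals
    simp [gz, pt, SimpleGraph.fromRel_adj]
    omega

theorem pt_inj {k N : ℕ} : Function.Injective (fun c : Fin N → Fin 3 → Fin k => gz (pt c)) := by
  intro c c' e
  funext y s
  simp only at e
  have h1 := pt_adj c s (c y s) y
  have h2 := pt_adj c' s (c y s) y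
  have h3 := pt_adj c s (c' y s) y
  have h4 := pt_adj c' s (c' y s) y
  rw [e] at h1 h3
  have e1 := h1.symm.trans h2
  have e2 := h3.symm.trans h4
  refine Fin.ext ?_
  split_ifs at e1 e2 <;> omega

/-- the linear forms in (left ends, right ends) that decide adjacency of midpoint intervals -/
def form {V : Type} (i : Fin 3 × V × V) : Module.Dual ℝ (Bool × V → ℝ) :=
  let L : V → Module.Dual ℝ (Bool × V → ℝ) := fun a => LinearMap.proj (false, a)
  let R : V → Module.Dual ℝ (Bool × V → ℝ) := fun a => LinearMap.proj (true, a)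
  if i.1 = 0 then L i.2.2 + L i.2.2 - L i.2.1 - R i.2.1
  else if i.1 = 1 then R i.2.1 - L i.2.2
  else L i.2.2 + R i.2.2 - R i.2.1 - R i.2.1

theorem code {V : Type} [Fintype V] (G : SimpleGraph V) (l v r : V → ℝ) (h : Rep G l v r)
    (hm : ∀ a, v a = (l a + r a) / 2) :
    ∃ s : Finset (Fin 3 × V × V), (∃ x, ∀ i, i ∈ s ↔ 0 < form i x) ∧ G = SimpleGraph.fromRel
      (fun a b => (0, a, b) ∈ s ∧ (1, a, b) ∈ s ∧ (2, a, b) ∈ s) := by
  classical
  let x : Bool × V → ℝ := fun p => if p.1 then r p.2 else l p.2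
  refine ⟨Finset.univ.filter (fun i => 0 < form i x), ⟨x, fun i => by simp⟩, ?_⟩
  have key : ∀ a b, (0 < form (0, a, b) x ∧ 0 < form (1, a, b) x ∧ 0 < form (2, a, b) x) ↔
      (v a < l b ∧ l b < r a ∧ r a < v b) := by
    intro a b
    have e0 : form (0, a, b) x = l b + l b - l a - r a := by simp [form, x]
    have e1 : form (1, a, b) x = r a - l b := by simp [form, x]
    have e2 : form (2, a, b) x = l b + r b - r a - r a := by simp [form, x]
    rw [e0, e1, e2, hm a, hm b]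
    constructor <;> rintro ⟨h1, h2, h3⟩ <;> refine ⟨?_, ?_, ?_⟩ <;> linarith
  ext a b
  simp only [SimpleGraph.fromRel_adj, Finset.mem_filter, Finset.mem_univ, true_and, key]
  exact ⟨fun hab => ⟨hab.ne, (h.2.2 a b hab.ne).1 hab⟩, fun hab => (h.2.2 a b hab.1).2 hab.2⟩

theorem main (k : ℕ) (hk : k = 2 ^ 33) :
    ∃ G : SimpleGraph (W k (13 * k)), (∃ l v r, Rep G l v r) ∧
      ¬ ∃ l v r, Rep G l v r ∧ ∀ a, v a = (l a + r a) / 2 := by
  classical
  by_contra hc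
  push Not at hc
  have : ∀ c : Fin (13 * k) → Fin 3 → Fin k, ∃ s : Finset (Fin 3 × W k (13 * k) × W k (13 * k)),
      (∃ x, ∀ i, i ∈ s ↔ 0 < form i x) ∧ gz (pt c) = SimpleGraph.fromRel
      (fun a b => (0, a, b) ∈ s ∧ (1, a, b) ∈ s ∧ (2, a, b) ∈ s) := by
    intro c
    obtain ⟨l, v, r, h1, h2⟩ := hc _ (pt_vi c)
    exact code _ l v r h1 h2
  choose ρ h1 hρ using this
  have inj : Function.Injective ρ := fun c c' e => pt_inj (by
    simp only
    rw [hρ c, hρ c', e])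
  have b1 := signs form (Finset.univ.image ρ) (fun s hs => by
    obtain ⟨c, -, rfl⟩ := Finset.mem_image.1 hs
    exact h1 c)
  rw [Finset.card_image_of_injective _ inj, Module.finrank_fintype_fun_eq_card] at b1
  simp only [Finset.card_univ, Fintype.card_fun, Fintype.card_fin, Fintype.card_prod,
    Fintype.card_sum, Fintype.card_bool] at b1
  have k0 : 0 < k := by omega
  have k0' : (0 : ℝ) < k := by exact_mod_cast k0
  have kq : (k : ℝ) = 2 ^ 33 := by exact_mod_cast hk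
  have b2 := sum_choose_le (3 * ((3 * k + 13 * k) * (3 * k + 13 * k))) (2 * (3 * k + 13 * k))
    (2 ^ 37) (by norm_num)
  have e3 : ((3 * ((3 * k + 13 * k) * (3 * k + 13 * k)) : ℕ) : ℝ) / 2 ^ 37 = (48 * k : ℕ) * 1 := by
    rw [div_eq_iff (by positivity), show (2 : ℝ) ^ 37 = 16 * k by rw [kq]; norm_num]
    push_cast
    ring
  rw [e3, Real.exp_nat_mul] at b2
  have b3 : Real.exp 1 ^ (48 * k) ≤ (2 ^ 2) ^ (48 * k) :=
    pow_le_pow_left₀ (Real.exp_pos _).le (by linarith [Real.exp_one_lt_d9]) _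
  have b4 : (((k ^ 3) ^ (13 * k) : ℕ) : ℝ) ≤
      (2 ^ 37) ^ (2 * (3 * k + 13 * k)) * (2 ^ 2) ^ (48 * k) :=
    le_trans (by exact_mod_cast b1) (b2.trans (mul_le_mul_of_nonneg_left b3 (by positivity)))
  push_cast at b4
  rw [show (k : ℝ) ^ 3 = 2 ^ (33 * 3) by rw [kq, ← pow_mul], ← pow_mul, ← pow_mul, ← pow_mul,
    ← pow_add] at b4
  have := (pow_le_pow_iff_right₀ (by norm_num)).1 b4
  omega

theorem result : ∃ (n : ℕ) (G : SimpleGraph (Fin n)), (∃ l v r, Rep G l v r) ∧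
    ¬ ∃ l v r, Rep G l v r ∧ ∀ a, v a = (l a + r a) / 2 := by
  obtain ⟨k, hk⟩ : ∃ k : ℕ, k = 2 ^ 33 := ⟨_, rfl⟩
  obtain ⟨G, ⟨l, v, r, h1, h2, h3⟩, hn⟩ := main k hk
  let e := (Fintype.equivFin (W k (13 * k))).symm
  refine ⟨_, G.comap e, ⟨l ∘ e, v ∘ e, r ∘ e, fun a => h1 _, fun a b h => e.injective (h2 h),
    fun a b hab => h3 _ _ (fun h => hab (e.injective h))⟩, ?_⟩
  rintro ⟨l, v, r, ⟨h1, h2, h3⟩, h4⟩
  refine hn ⟨l ∘ e.symm, v ∘ e.symm, r ∘ e.symm, ⟨fun a => h1 _,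
    fun a b h => e.symm.injective (h2 h), fun a b hab => ?_⟩, fun a => h4 _⟩
  have := h3 (e.symm a) (e.symm b) (fun h => hab (e.symm.injective h))
  simpa using this

end Pool.Agent.Results.MP_c8a11a_co.NotMid
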